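import Mathlib

/-
Passing an additive basis with bounded representation function from `ZMod M` to `ZMod m`,
`m = M + 1` or `M = m + 1`, at the cost of a factor four.
-/

namespace Pool.Agent.MP_344049_nt.gap

open Finset

/-- Pairs of naturals with a fixed sum whose first entry lies in a window of length `M` inject
into the representations modulo `M`. -/
theorem chunk (M r : ℕ) (A : Finset (ZMod M))
    (hA : ∀ n : ZMod M, ((A ×ˢ A).filter (fun p => p.1 + p.2 = n)).card ≤ r)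
    (S : Finset ℕ) (hS : ∀ x ∈ S, (x : ZMod M) ∈ A) (w a : ℕ) :
    ((S ×ˢ S).filter (fun p => p.1 + p.2 = w ∧ a ≤ p.1 ∧ p.1 < a + M)).card ≤ r := by
  refine le_trans ?_ (hA (w : ZMod M))
  refine Finset.card_le_card_of_injOn (fun p => ((p.1 : ZMod M), (p.2 : ZMod M))) ?_ ?_
  · intro p hp
    simp only [Finset.coe_filter, Finset.mem_product, Set.mem_ofPred_eq] at hp ⊢
    refine ⟨⟨hS _ hp.1.1, hS _ hp.1.2⟩, ?_⟩
    rw [← hp.2.1]
    push_cast
    rfl
  · intro p hp q hq hpq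
    simp only [Finset.coe_filter, Finset.mem_product, Set.mem_ofPred_eq] at hp hq
    have h1 : (p.1 : ZMod M) = (q.1 : ZMod M) := congrArg Prod.fst hpq
    have h2 : p.1 ≡ q.1 [MOD M] := (ZMod.natCast_eq_natCast_iff _ _ _).1 h1
    have h3 : p.1 = q.1 := Nat.ModEq.eq_of_abs_lt h2 (by
      rw [abs_lt]
      constructor <;> omega)
    refine Prod.ext h3 ?_
    omega

/-- A window of `M` consecutive naturals meets every residue class modulo `M`. -/
theorem window (M : ℕ) (hM : 1 ≤ M) (a : ℕ) (c : ZMod M) :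
    ∃ x : ℕ, a ≤ x ∧ x < a + M ∧ (x : ZMod M) = c := by
  have : NeZero M := ⟨by omega⟩
  refine ⟨a + (c - (a : ZMod M)).val, by omega, ?_, ?_⟩
  · have := ZMod.val_lt (c - (a : ZMod M))
    omega
  · push_cast
    rw [ZMod.natCast_zmod_val]
    ring

theorem lift4 (M m r : ℕ) (hM : 1 ≤ M) (hm : 1 ≤ m) (h : m = M + 1 ∨ M = m + 1)
    (A : Finset (ZMod M))
    (hA : ∀ n : ZMod M, 1 ≤ ((A ×ˢ A).filter (fun p => p.1 + p.2 = n)).card ∧
      ((A ×ˢ A).filter (fun p => p.1 + p.2 = n)).card ≤ r) :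
    ∃ B : Finset (ZMod m), ∀ n : ZMod m, 1 ≤ ((B ×ˢ B).filter (fun p => p.1 + p.2 = n)).card ∧
      ((B ×ˢ B).filter (fun p => p.1 + p.2 = n)).card ≤ 4 * r := by
  classical
  have : NeZero m := ⟨by omega⟩
  obtain ⟨L, hL⟩ : ∃ L : ℕ, L = M + m / 2 := ⟨_, rfl⟩
  set S : Finset ℕ := (range L).filter (fun x => (x : ZMod M) ∈ A) with hSdef
  have hS : ∀ x ∈ S, (x : ZMod M) ∈ A := fun x hx => (mem_filter.1 hx).2
  have hSL : ∀ x ∈ S, x < L := fun x hx => mem_range.1 (mem_filter.1 hx).1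
  refine ⟨S.image (fun x : ℕ => (x : ZMod m)), fun n => ⟨?_, ?_⟩⟩
  · obtain ⟨w, hw1, hw2, hw3⟩ := window m hm (M - 1) n
    obtain ⟨p, hp⟩ := Finset.card_pos.1 (hA (w : ZMod M)).1
    simp only [mem_filter, mem_product] at hp
    obtain ⟨x, hx1, hx2, hx3⟩ := window M hM (w + 1 - L) p.1
    have hxw : x ≤ w := by omega
    have hy : ((w - x : ℕ) : ZMod M) = p.2 := by
      rw [Nat.cast_sub hxw, hx3, ← hp.2]
      ring
    refine Finset.card_pos.2 ⟨((x : ZMod m), ((w - x : ℕ) : ZMod m)), ?_⟩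
    simp only [mem_filter, mem_product]
    refine ⟨⟨mem_image_of_mem _ ?_, mem_image_of_mem _ ?_⟩, ?_⟩
    · rw [hSdef, mem_filter, mem_range, hx3]
      exact ⟨by omega, hp.1.1⟩
    · rw [hSdef, mem_filter, mem_range, hy]
      exact ⟨by omega, hp.1.2⟩
    · rw [Nat.cast_sub hxw, hw3]
      ring
  · have hv : n.val < m := ZMod.val_lt n
    obtain ⟨v, hvn⟩ : ∃ v : ℕ, v = n.val := ⟨_, rfl⟩
    have key : ∃ w1 a1 w2 a2 w3 a3 w4 a4 : ℕ, ∀ x y : ℕ, x < L → y < L →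
        (x + y = v ∨ x + y = v + m ∨ x + y = v + 2 * m ∨ x + y = v + 3 * m) →
        (x + y = w1 ∧ a1 ≤ x ∧ x < a1 + M) ∨ (x + y = w2 ∧ a2 ≤ x ∧ x < a2 + M) ∨
        (x + y = w3 ∧ a3 ≤ x ∧ x < a3 + M) ∨ (x + y = w4 ∧ a4 ≤ x ∧ x < a4 + M) := by
      by_cases c1 : v + 3 * m + 2 ≤ 2 * L
      · refine ⟨v, 0, v + m, v + m + 1 - L, v + 2 * m, v + 2 * m + 1 - L, v + 3 * m,
          v + 3 * m + 1 - L, ?_⟩
        intro x y hx hy hxy
        omega
      · by_cases c2 : v < M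
        · refine ⟨v, 0, v + m, 0, v + m, M, v + 2 * m, v + 2 * m + 1 - L, ?_⟩
          intro x y hx hy hxy
          omega
        · refine ⟨v, 0, v, M, v + m, v + m + 1 - L, v + 2 * m, v + 2 * m + 1 - L, ?_⟩
          intro x y hx hy hxy
          omega
    obtain ⟨w1, a1, w2, a2, w3, a3, w4, a4, key⟩ := key
    have hA2 := fun n => (hA n).2
    have e1 := chunk M r A hA2 S hS w1 a1
    have e2 := chunk M r A hA2 S hS w2 a2
    have e3 := chunk M r A hA2 S hS w3 a3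
    have e4 := chunk M r A hA2 S hS w4 a4
    set T1 := (S ×ˢ S).filter (fun p => p.1 + p.2 = w1 ∧ a1 ≤ p.1 ∧ p.1 < a1 + M) with hT1
    set T2 := (S ×ˢ S).filter (fun p => p.1 + p.2 = w2 ∧ a2 ≤ p.1 ∧ p.1 < a2 + M) with hT2
    set T3 := (S ×ˢ S).filter (fun p => p.1 + p.2 = w3 ∧ a3 ≤ p.1 ∧ p.1 < a3 + M) with hT3
    set T4 := (S ×ˢ S).filter (fun p => p.1 + p.2 = w4 ∧ a4 ≤ p.1 ∧ p.1 < a4 + M) with hT4
    have hsub : ((S.image (fun x : ℕ => (x : ZMod m)) ×ˢ S.image (fun x : ℕ => (x : ZMod m))).filter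
        (fun p => p.1 + p.2 = n)) ⊆
        (T1 ∪ T2 ∪ T3 ∪ T4).image (fun p : ℕ × ℕ => ((p.1 : ZMod m), (p.2 : ZMod m))) := by
      intro p hp
      simp only [mem_filter, mem_product, mem_image] at hp
      obtain ⟨⟨⟨x, hx, hx'⟩, ⟨y, hy, hy'⟩⟩, hxy⟩ := hp
      refine mem_image.2 ⟨(x, y), ?_, Prod.ext hx' hy'⟩
      have hxL := hSL x hx
      have hyL := hSL y hy
      have hmod : (x + y) % m = v := by
        rw [hvn, ← hxy, ← hx', ← hy', ← Nat.cast_add, ZMod.val_natCast]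
      have hdiv := Nat.div_add_mod (x + y) m
      have hq : (x + y) / m < 4 := by
        rw [Nat.div_lt_iff_lt_mul (by omega)]
        omega
      have hc : x + y = v ∨ x + y = v + m ∨ x + y = v + 2 * m ∨ x + y = v + 3 * m := by
        generalize (x + y) / m = q at hdiv hq
        interval_cases q <;> omega
      have hk := key x y hxL hyL hc
      have hxy2 : (x, y) ∈ S ×ˢ S := mem_product.2 ⟨hx, hy⟩
      rcases hk with hk | hk | hk | hk
      · exact mem_union_left _ (mem_union_left _ (mem_union_left _ (mem_filter.2 ⟨hxy2, hk⟩)))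
      · exact mem_union_left _ (mem_union_left _ (mem_union_right _ (mem_filter.2 ⟨hxy2, hk⟩)))
      · exact mem_union_left _ (mem_union_right _ (mem_filter.2 ⟨hxy2, hk⟩))
      · exact mem_union_right _ (mem_filter.2 ⟨hxy2, hk⟩)
    calc _ ≤ _ := card_le_card hsub
      _ ≤ (T1 ∪ T2 ∪ T3 ∪ T4).card := card_image_le
      _ ≤ T1.card + T2.card + T3.card + T4.card := by
        have u1 := card_union_le (T1 ∪ T2 ∪ T3) T4
        have u2 := card_union_le (T1 ∪ T2) T3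
        have u3 := card_union_le T1 T2
        omega
      _ ≤ 4 * r := by omega

/-- A uniform bound C on the Ruzsa numbers gives the bound 3C/4 on consecutive differences. -/
theorem gap_bound (R : ℕ → ℕ)
    (hR : ∀ m, R m = sInf {r : ℕ | 0 < r ∧ ∃ A : Finset (ZMod m), ∀ n : ZMod m,
      1 ≤ ((A ×ˢ A).filter (fun p => p.1 + p.2 = n)).card ∧
      ((A ×ˢ A).filter (fun p => p.1 + p.2 = n)).card ≤ r})
    (C : ℕ) (hC : ∀ m, 1 ≤ m → ∃ A : Finset (ZMod m), ∀ n : ZMod m,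
      1 ≤ ((A ×ˢ A).filter (fun p => p.1 + p.2 = n)).card ∧
      ((A ×ˢ A).filter (fun p => p.1 + p.2 = n)).card ≤ C) (m : ℕ) (hm : 1 ≤ m) :
    R m ≤ C ∧ 4 * |(R (m + 1) : ℤ) - R m| ≤ 3 * C := by
  have hpos : 0 < C := by
    obtain ⟨A, hA⟩ := hC 1 le_rfl
    have := hA 0
    omega
  have hle : ∀ k, 1 ≤ k → R k ≤ C := fun k hk => by
    rw [hR]
    exact Nat.sInf_le ⟨hpos, hC k hk⟩
  have h4 : ∀ M k, 1 ≤ M → 1 ≤ k → (k = M + 1 ∨ M = k + 1) → R k ≤ 4 * R M := by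
    intro M k hM hk h
    have hmem := Nat.sInf_mem (s := {r : ℕ | 0 < r ∧ ∃ A : Finset (ZMod M), ∀ n : ZMod M,
      1 ≤ ((A ×ˢ A).filter (fun p => p.1 + p.2 = n)).card ∧
      ((A ×ˢ A).filter (fun p => p.1 + p.2 = n)).card ≤ r}) ⟨C, hpos, hC M hM⟩
    rw [← hR] at hmem
    obtain ⟨h0, A, hA⟩ := hmem
    rw [hR k]
    exact Nat.sInf_le ⟨by omega, lift4 M k (R M) hM hk h A hA⟩
  have a1 := hle m hm
  have a2 := hle (m + 1) (by omega)
  have a3 := h4 m (m + 1) hm (by omega) (Or.inl rfl)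
  have a4 := h4 (m + 1) m (by omega) hm (Or.inr rfl)
  refine ⟨a1, ?_⟩
  rcases abs_cases ((R (m + 1) : ℤ) - R m) with h | h <;> omega

end Pool.Agent.MP_344049_nt.gap
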